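import Mathlib

set_option autoImplicit false

namespace Pool.Agent.H.MP_70d3c3_lc

open Finset

noncomputable section

/-- load of bin b -/
def load (A : List ℝ → ℝ → ℕ) (L : List ℝ) (b : ℕ) : ℝ :=
  ∑ i ∈ range L.length, if A (L.take i) (L.getD i 0) = b then L.getD i 0 else 0

/-- bins used -/
def used (A : List ℝ → ℝ → ℕ) (L : List ℝ) : Finset ℕ :=
  (range L.length).image fun i => A (L.take i) (L.getD i 0)

theorem take_app (L q : List ℝ) {i : ℕ} (h : i ≤ L.length) : (L ++ q).take i = L.take i :=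
  List.take_append_of_le_length h

theorem getD_app (L q : List ℝ) {i : ℕ} (h : i < L.length) : (L ++ q).getD i 0 = L.getD i 0 :=
  List.getD_append _ _ _ _ h

theorem load_snoc (A : List ℝ → ℝ → ℕ) (L : List ℝ) (x : ℝ) (b : ℕ) :
    load A (L ++ [x]) b = load A L b + if A L x = b then x else 0 := by
  unfold load
  rw [List.length_append, List.length_singleton, sum_range_succ]
  congr 1
  · refine sum_congr rfl fun i hi => ?_
    have := mem_range.1 hi
    rw [take_app L _ this.le, getD_app L _ this]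
  · simp

theorem used_snoc (A : List ℝ → ℝ → ℕ) (L : List ℝ) (x : ℝ) :
    used A (L ++ [x]) = insert (A L x) (used A L) := by
  unfold used
  rw [List.length_append, List.length_singleton, range_add_one, image_insert]
  congr 1
  · simp
  · refine image_congr fun i hi => ?_
    have : i < L.length := by simpa using hi
    simp only [take_app L _ this.le, getD_app L _ this]

theorem load_nil (A : List ℝ → ℝ → ℕ) (b : ℕ) : load A [] b = 0 := by simp [load]

theorem used_nil (A : List ℝ → ℝ → ℕ) : used A [] = ∅ := by simp [used]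

theorem load_unused (A : List ℝ → ℝ → ℕ) (L : List ℝ) (b : ℕ) (h : b ∉ used A L) :
    load A L b = 0 := by
  refine sum_eq_zero fun i hi => if_neg fun e => h ?_
  exact mem_image.2 ⟨i, hi, e⟩

/-- data of a line -/
structure Line where
  In : ℝ → Prop
  lev : ℝ → ℕ
  hi : ℕ → ℝ
  ka : ℕ → ℝ
  ps : ℕ → ℝ
  ex : ℝ → ℝ
  pos : ∀ x, In x → 0 < x ∧ x ≤ 1
  exn : ∀ x, In x → 0 ≤ ex x
  ex1 : ka 0 ≤ ex 1
  ex2 : ex 1 ≤ 1
  le_hi : ∀ x, In x → x ≤ hi (lev x)
  anti : Antitone hi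
  hin : ∀ j, 0 ≤ hi j
  P : ∀ (j : ℕ) (l : List ℝ), (∀ y ∈ l, In y ∧ lev y ≤ j) → 1 - l.sum < hi j →
    1 - l.sum ≤ (l.map ex).sum
  K : ∀ (j : ℕ) (l : List ℝ), (∀ y ∈ l, In y ∧ lev y ≤ j) → ∀ x, In x → 1 - l.sum < x →
    ka j ≤ (l.map ex).sum
  a : ∀ j, hi (j + 1) ≤ ka j
  b : ∀ j, ps j - ka j + 2 * hi (j + 1) ≤ 0
  c : ∀ i j, i < j → ps j + 2 * hi (i + 1) ≤ ps i
  d : ∀ j, 0 ≤ ps j ∧ ps j ≤ 1

/-- state -/
structure LS where
  R : List ℝ
  C : List ℝ
  Q : List ℝ
  r : ℕ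
  c : ℕ
  q : ℕ
  n : ℕ
  m : ℕ

def Line.lam (Λ : Line) (l : List ℝ) : ℕ := l.toFinset.sup Λ.lev

def Line.step (Λ : Line) (s : LS) (x : ℝ) : LS :=
  if s.R.sum + x ≤ 1 then { s with R := x :: s.R }
  else if s.C.sum + x ≤ 1 then { s with C := x :: s.C }
  else if s.Q.sum + x ≤ 1 then { s with Q := x :: s.Q }
  else if s.m < Λ.lam s.Q ∨ Λ.hi (Λ.lam s.Q + 1) ≤ 1 - s.R.sum then
    ⟨s.R, s.Q, [x], s.r, s.q, s.n, s.n + 1, Λ.lam s.Q⟩
  else ⟨s.C, s.Q, [x], s.c, s.q, s.n, s.n + 1, Λ.lam s.Q⟩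

def out (s : LS) (x : ℝ) : ℕ :=
  if s.R.sum + x ≤ 1 then s.r else if s.C.sum + x ≤ 1 then s.c
  else if s.Q.sum + x ≤ 1 then s.q else s.n

def s0 : LS := ⟨[1], [1], [], 0, 1, 2, 3, 0⟩

def Line.st (Λ : Line) (p : List ℝ) : LS := p.foldl Λ.step s0

def Line.alg (Λ : Line) (p : List ℝ) (x : ℝ) : ℕ := out (Λ.st p) x

def Line.E (Λ : Line) (l : List ℝ) : ℝ := (l.map Λ.ex).sum

def Line.debt (Λ : Line) (p : List ℝ) (s : LS) : ℝ :=
  (s.n : ℝ) - 3 - (p.sum + Λ.E p + 2 + 2 * Λ.ex 1 - (s.R.sum + Λ.E s.R) - (s.C.sum + Λ.E s.C)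
    - (s.Q.sum + Λ.E s.Q))

structure Line.Inv (Λ : Line) (p : List ℝ) (s : LS) : Prop where
  lt : s.r < s.n ∧ s.c < s.n ∧ s.q < s.n
  ne : s.r ≠ s.c ∧ s.r ≠ s.q ∧ s.c ≠ s.q
  us : ∀ b ∈ used Λ.alg p, b < s.n
  ld : load Λ.alg p s.r ≤ s.R.sum ∧ load Λ.alg p s.c ≤ s.C.sum ∧ load Λ.alg p s.q ≤ s.Q.sum
  l1 : ∀ b, load Λ.alg p b ≤ 1
  iR : ∀ y ∈ s.R, Λ.In y ∨ y = 1
  iC : ∀ y ∈ s.C, Λ.In y ∨ y = 1
  iQ : ∀ y ∈ s.Q, Λ.In y
  fC : ∀ y ∈ s.C, 1 - s.R.sum < y
  fQ : ∀ y ∈ s.Q, 1 - s.R.sum < y ∧ 1 - s.C.sum < y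
  i1 : Λ.debt p s ≤ Λ.ps s.m
  i2 : Λ.debt p s ≤ Λ.ps s.m + Λ.E s.R - Λ.hi (s.m + 1)
  i3 : Λ.ka s.m ≤ Λ.E s.C

theorem Line.ex1n (Λ : Line) : 0 ≤ Λ.ex 1 := ((Λ.hin _).trans (Λ.a 0)).trans Λ.ex1

theorem Line.En (Λ : Line) {l : List ℝ} (h : ∀ y ∈ l, Λ.In y ∨ y = 1) : 0 ≤ Λ.E l := by
  refine List.sum_nonneg fun z hz => ?_
  obtain ⟨y, hy, rfl⟩ := List.mem_map.1 hz
  rcases h y hy with h | rfl
  · exact Λ.exn _ h
  · exact Λ.ex1n

theorem Line.Sn (Λ : Line) {l : List ℝ} (h : ∀ y ∈ l, Λ.In y ∨ y = 1) : ∀ y ∈ l, 0 ≤ y := by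
  intro y hy
  rcases h y hy with h | rfl
  · exact (Λ.pos _ h).1.le
  · exact zero_le_one

theorem Line.inv0 (Λ : Line) : Λ.Inv [] s0 := by
  have := Λ.d 0
  have := Λ.a 0
  have := Λ.ex1
  constructor <;> simp [s0, used_nil, load_nil, Line.debt, Line.E] <;> linarith

theorem Line.st_snoc (Λ : Line) (p : List ℝ) (x : ℝ) : Λ.st (p ++ [x]) = Λ.step (Λ.st p) x := by
  simp [Line.st, List.foldl_append]

theorem Line.inv_step (Λ : Line) (p : List ℝ) (x : ℝ) (hx : Λ.In x) (h : Λ.Inv p (Λ.st p)) :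
    Λ.Inv (p ++ [x]) (Λ.st (p ++ [x])) := by
  rw [Λ.st_snoc]
  have hA : Λ.alg p x = out (Λ.st p) x := rfl
  generalize Λ.st p = s at h hA
  obtain ⟨x0, x1⟩ := Λ.pos x hx
  have xe := Λ.exn x hx
  obtain ⟨⟨l1, l2, l3⟩, ⟨n1, n2, n3⟩, us, ⟨d1, d2, d3⟩, ll, iR, iC, iQ, fC, fQ, i1, i2, i3⟩ := h
  have hE : ∀ l : List ℝ, Λ.E (x :: l) = Λ.ex x + Λ.E l := fun l => by simp [Line.E]
  have hE' : Λ.E (p ++ [x]) = Λ.E p + Λ.ex x := by simp [Line.E]
  unfold Line.step
  unfold out at hA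
  unfold Line.debt at i1 i2
  split_ifs at hA ⊢ with h1 h2 h3 h4
  · refine ⟨⟨l1, l2, l3⟩, ⟨n1, n2, n3⟩, ?_, ?_, ?_, ?_, iC, iQ, ?_, ?_, ?_, ?_, i3⟩
    · simpa [used_snoc, hA, l1] using us
    · simp only [load_snoc, hA, List.sum_cons, if_neg n1, if_neg n2, if_true]
      exact ⟨by linarith, by linarith, by linarith⟩
    · intro b
      rw [load_snoc, hA]
      split_ifs with e
      · subst e; linarith
      · simpa using ll b
    · simpa [hx] using iR
    · intro y hy; have := fC y hy; simp only [List.sum_cons]; linarith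
    · intro y hy; have := fQ y hy; simp only [List.sum_cons]; exact ⟨by linarith, this.2⟩
    · simp only [Line.debt, hE, hE', List.sum_append, List.sum_cons, List.sum_nil]; linarith
    · simp only [Line.debt, hE, hE', List.sum_append, List.sum_cons, List.sum_nil]; linarith
  · refine ⟨⟨l1, l2, l3⟩, ⟨n1, n2, n3⟩, ?_, ?_, ?_, iR, ?_, iQ, ?_, ?_, ?_, ?_, ?_⟩
    · simpa [used_snoc, hA, l2] using us
    · simp only [load_snoc, hA, List.sum_cons, if_neg n1.symm, if_neg n3, if_true]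
      exact ⟨by linarith, by linarith, by linarith⟩
    · intro b
      rw [load_snoc, hA]
      split_ifs with e
      · subst e; linarith
      · simpa using ll b
    · simpa [hx] using iC
    · intro y hy
      rcases List.mem_cons.1 hy with rfl | hy
      · simp only; linarith
      · exact fC y hy
    · intro y hy; have := fQ y hy; simp only [List.sum_cons]; exact ⟨this.1, by linarith⟩
    · simp only [Line.debt, hE, hE', List.sum_append, List.sum_cons, List.sum_nil]; linarith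
    · simp only [Line.debt, hE, hE', List.sum_append, List.sum_cons, List.sum_nil]; linarith
    · simp only [hE]; linarith
  · refine ⟨⟨l1, l2, l3⟩, ⟨n1, n2, n3⟩, ?_, ?_, ?_, iR, iC, ?_, fC, ?_, ?_, ?_, i3⟩
    · simpa [used_snoc, hA, l3] using us
    · simp only [load_snoc, hA, List.sum_cons, if_neg n2.symm, if_neg n3.symm, if_true]
      exact ⟨by linarith, by linarith, by linarith⟩
    · intro b
      rw [load_snoc, hA]
      split_ifs with e
      · subst e; linarith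
      · simpa using ll b
    · simpa [hx] using iQ
    · intro y hy
      rcases List.mem_cons.1 hy with rfl | hy
      · exact ⟨by simp only; linarith, by simp only; linarith⟩
      · exact fQ y hy
    · simp only [Line.debt, hE, hE', List.sum_append, List.sum_cons, List.sum_nil]; linarith
    · simp only [Line.debt, hE, hE', List.sum_append, List.sum_cons, List.sum_nil]; linarith
  all_goals
    have hQ : s.Q.toFinset.Nonempty := by
      rcases hq : s.Q with _ | ⟨y, l⟩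
      · rw [hq] at h3; simp at h3; linarith
      · exact ⟨y, by simp⟩
    obtain ⟨y, hy, hyl⟩ := Finset.exists_mem_eq_sup _ hQ Λ.lev
    have hy' := List.mem_toFinset.1 hy
    have hyh : y ≤ Λ.hi (Λ.lam s.Q) := by
      have := Λ.le_hi y (iQ y hy'); unfold Line.lam; rwa [hyl]
    have hQl : ∀ z ∈ s.Q, Λ.In z ∧ Λ.lev z ≤ Λ.lam s.Q := fun z hz =>
      ⟨iQ z hz, Finset.le_sup (f := Λ.lev) (List.mem_toFinset.2 hz)⟩
    have k3 : Λ.ka (Λ.lam s.Q) ≤ Λ.E s.Q := Λ.K _ _ hQl x hx (by linarith)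
    obtain ⟨eR, eC⟩ := fQ y hy'
    have hn : load Λ.alg p s.n = 0 := load_unused _ _ _ fun hb => lt_irrefl _ (us _ hb)
    have u' : ∀ b ∈ used Λ.alg (p ++ [x]), b < s.n + 1 := by
      intro b hb
      rw [used_snoc, hA] at hb
      rcases mem_insert.1 hb with rfl | hb
      · omega
      · exact (us b hb).trans (Nat.lt_succ_self _)
    have ll' : ∀ b, load Λ.alg (p ++ [x]) b ≤ 1 := by
      intro b
      rw [load_snoc, hA]
      split_ifs with e
      · subst e; linarith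
      · simpa using ll b
    have ER := Λ.En iR
    have EC := Λ.En iC
    have hb := Λ.b s.m
    have ha := Λ.a s.m
    have hd := (Λ.d (Λ.lam s.Q)).1
    have hh := Λ.hin (s.m + 1)
    have hh' := Λ.hin (Λ.lam s.Q + 1)
    have hx0 : Λ.E [x] = Λ.ex x := by simp [Line.E]
  · have key : (s.n : ℝ) + 1 - 3 - (p.sum + Λ.E p + 2 + 2 * Λ.ex 1 - (s.R.sum + Λ.E s.R)
        - (s.Q.sum + Λ.E s.Q)) ≤ Λ.ps (Λ.lam s.Q) ∧ (s.n : ℝ) + 1 - 3 - (p.sum + Λ.E p + 2 +
        2 * Λ.ex 1 - (s.R.sum + Λ.E s.R) - (s.Q.sum + Λ.E s.Q)) ≤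
        Λ.ps (Λ.lam s.Q) + Λ.E s.R - Λ.hi (Λ.lam s.Q + 1) := by
      rcases lt_or_ge s.m (Λ.lam s.Q) with hm | hm
      · have := Λ.anti (Nat.succ_le_of_lt hm)
        have := Λ.anti (Nat.succ_le_succ hm.le)
        simp only [Nat.succ_eq_add_one] at *
        constructor <;> linarith
      · have h5 := h4.resolve_left (not_lt.2 hm)
        have ok : 1 - s.C.sum ≤ Λ.E s.C := by
          by_cases h1' : (1 : ℝ) ∈ s.C
          · have := List.single_le_sum (Λ.Sn iC) _ h1'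
            linarith
          · refine Λ.P (Λ.lam s.Q) _ (fun z hz => ?_) (by linarith)
            have hz' := (iC z hz).resolve_right fun e => h1' (e ▸ hz)
            refine ⟨hz', ?_⟩
            by_contra hc
            have := Λ.anti (Nat.succ_le_of_lt (not_le.1 hc))
            have := Λ.le_hi z hz'
            have := fC z hz
            simp only [Nat.succ_eq_add_one] at *
            linarith
        rcases hm.lt_or_eq with hm | hm
        · have := Λ.c _ _ hm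
          constructor <;> linarith
        · rw [hm]
          constructor <;> linarith
    refine ⟨⟨by simp only; omega, by simp only; omega, by simp⟩,
      ⟨n2, l1.ne, l3.ne⟩, u', ?_, ll', iR, fun z hz => Or.inl (iQ z hz), by simpa using hx,
      fun z hz => (fQ z hz).1, ?_, ?_, ?_, k3⟩
    · simp only [load_snoc, hA, if_neg l1.ne', if_neg l3.ne', if_true, List.sum_singleton]
      exact ⟨by linarith, by linarith, by linarith⟩
    · intro z hz
      obtain rfl := List.mem_singleton.1 hz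
      exact ⟨by simp only; linarith, by simp only; linarith⟩
    · simp only [Line.debt, hx0, hE', List.sum_append, List.sum_singleton]
      push_cast; linarith [key.1]
    · simp only [Line.debt, hx0, hE', List.sum_append, List.sum_singleton]
      push_cast; linarith [key.2]
  · obtain ⟨hm, h5⟩ := not_or.1 h4
    have key : (s.n : ℝ) + 1 - 3 - (p.sum + Λ.E p + 2 + 2 * Λ.ex 1 - (s.C.sum + Λ.E s.C)
        - (s.Q.sum + Λ.E s.Q)) ≤ Λ.ps (Λ.lam s.Q) ∧ (s.n : ℝ) + 1 - 3 - (p.sum + Λ.E p + 2 +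
        2 * Λ.ex 1 - (s.C.sum + Λ.E s.C) - (s.Q.sum + Λ.E s.Q)) ≤
        Λ.ps (Λ.lam s.Q) + Λ.E s.C - Λ.hi (Λ.lam s.Q + 1) := by
      rcases (not_lt.1 hm).lt_or_eq with hm | hm
      · have := Λ.c _ _ hm
        constructor <;> linarith
      · rw [hm] at h5 ⊢
        constructor <;> linarith
    refine ⟨⟨by simp only; omega, by simp only; omega, by simp⟩,
      ⟨n3, l2.ne, l3.ne⟩, u', ?_, ll', iC, fun z hz => Or.inl (iQ z hz), by simpa using hx,
      fun z hz => (fQ z hz).2, ?_, ?_, ?_, k3⟩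
    · simp only [load_snoc, hA, if_neg l2.ne', if_neg l3.ne', if_true, List.sum_singleton]
      exact ⟨by linarith, by linarith, by linarith⟩
    · intro z hz
      obtain rfl := List.mem_singleton.1 hz
      exact ⟨by simp only; linarith, by simp only; linarith⟩
    · simp only [Line.debt, hx0, hE', List.sum_append, List.sum_singleton]
      push_cast; linarith [key.1]
    · simp only [Line.debt, hx0, hE', List.sum_append, List.sum_singleton]
      push_cast; linarith [key.2]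

theorem Line.inv (Λ : Line) (p : List ℝ) (h : ∀ y ∈ p, Λ.In y) : Λ.Inv p (Λ.st p) := by
  induction p using List.reverseRecOn with
  | nil => exact Λ.inv0
  | append_singleton p x ih =>
    exact Λ.inv_step p x (h x (by simp)) (ih fun y hy => h y (by simp [hy]))

theorem Line.count (Λ : Line) (p : List ℝ) (h : ∀ y ∈ p, Λ.In y) :
    ((used Λ.alg p).card : ℝ) ≤ p.sum + Λ.E p + 8 := by
  have I := Λ.inv p h
  have h1 : (used Λ.alg p).card ≤ (Λ.st p).n := by
    simpa using card_le_card (show used Λ.alg p ⊆ range (Λ.st p).n from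
      fun b hb => mem_range.2 (I.us b hb))
  have h2 : ((used Λ.alg p).card : ℝ) ≤ (Λ.st p).n := by exact_mod_cast h1
  have := I.i1
  have := (Λ.d (Λ.st p).m).2
  have := Λ.ex2
  have := Λ.En I.iR
  have := Λ.En I.iC
  have := Λ.En fun y hy => Or.inl (I.iQ y hy)
  have := List.sum_nonneg (Λ.Sn I.iR)
  have := List.sum_nonneg (Λ.Sn I.iC)
  have := List.sum_nonneg (Λ.Sn fun y hy => Or.inl (I.iQ y hy))
  unfold Line.debt at *
  linarith

theorem Line.future (Λ : Line) (s : LS) (q : List ℝ) (x : ℝ) :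
    out (q.foldl Λ.step s) x ∈ ({s.r, s.c, s.q} : Finset ℕ) ∨ s.n ≤ out (q.foldl Λ.step s) x := by
  induction q generalizing s with
  | nil => simp only [List.foldl_nil, out]; split_ifs <;> simp
  | cons y q ih =>
    have := ih (Λ.step s y)
    rw [List.foldl_cons]
    generalize out (List.foldl Λ.step (Λ.step s y) q) x = o at this ⊢
    unfold Line.step at this
    split_ifs at this <;> simp only [mem_insert, mem_singleton] at this ⊢ <;> omega

theorem Line.bdd (Λ : Line) (p : List ℝ) (h : ∀ y ∈ p, Λ.In y) :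
    ∃ S : Finset ℕ, S.card ≤ 3 ∧ ∀ q x, Λ.alg (p ++ q) x ∈ used Λ.alg p → Λ.alg (p ++ q) x ∈ S := by
  refine ⟨{(Λ.st p).r, (Λ.st p).c, (Λ.st p).q}, card_le_three, fun q x hq => ?_⟩
  have e : Λ.alg (p ++ q) x = out (q.foldl Λ.step (Λ.st p)) x := by
    simp [Line.alg, Line.st, List.foldl_append]
  have := (Λ.inv p h).us _ hq
  rw [e] at this ⊢
  exact (Λ.future _ q x).resolve_right (not_le.2 this)

end

end Pool.Agent.H.MP_70d3c3_lc
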