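import Mathlib
import Pool.Agent.H.MP_70d3c3_lc.A

set_option autoImplicit false

namespace Pool.Agent.H.MP_70d3c3_lc

open Finset

noncomputable section

/-- Sylvester numbers minus one -/
def an : ℕ → ℕ
  | 0 => 1
  | i + 1 => an i * (an i + 1)

def a (i : ℕ) : ℝ := an i

theorem a_succ (i : ℕ) : a (i + 1) = a i * (a i + 1) := by simp [a, an]

theorem a_ge (i : ℕ) : (2 : ℝ) ^ i ≤ a i := by
  induction i with
  | zero => simp [a, an]
  | succ i ih =>
    have : (1 : ℝ) ≤ 2 ^ i := one_le_pow₀ (by norm_num)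
    rw [a_succ, pow_succ]; nlinarith

theorem a1 (i : ℕ) : 1 ≤ a i := (one_le_pow₀ (by norm_num)).trans (a_ge i)

theorem a_mono : Monotone a := monotone_nat_of_le_succ fun i => by
  have := a1 i
  rw [a_succ]; nlinarith

theorem a_lt {i j : ℕ} (h : i < j) : a i * (a i + 1) ≤ a j := by
  rw [← a_succ]; exact a_mono h

theorem a3 : a 3 = 42 := by norm_num [a, an]

theorem a0 : a 0 = 1 := by norm_num [a, an]

def lv (x : ℝ) : ℕ := sInf {i | 1 / a (i + 1) < x}

theorem lv1 {x : ℝ} (h : 0 < x) : 1 / a (lv x + 1) < x := by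
  have : {i | 1 / a (i + 1) < x}.Nonempty := by
    obtain ⟨n, hn⟩ := exists_pow_lt_of_lt_one h (show (1 / 2 : ℝ) < 1 by norm_num)
    refine ⟨n, lt_of_le_of_lt ?_ hn⟩
    rw [one_div_pow]
    exact one_div_le_one_div_of_le (by positivity) ((a_ge n).trans (a_mono (Nat.le_succ n)))
  exact Nat.sInf_mem this

theorem lv2 {x : ℝ} (h : x ≤ 1) : x ≤ 1 / a (lv x) := by
  rcases e : lv x with _ | i
  · simpa [a0] using h
  · by_contra hc
    have : lv x ≤ i := Nat.sInf_le (not_le.1 hc)
    omega

theorem lv3 {x : ℝ} (h : 0 < x) {i : ℕ} (hx : x ≤ 1 / a i) : i ≤ lv x := by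
  by_contra hc
  have := one_div_le_one_div_of_le (by linarith [a1 (lv x + 1)])
    (a_mono (Nat.succ_le_of_lt (not_le.1 hc)))
  linarith [lv1 h]

open Classical in
def ex (x : ℝ) : ℝ := if 1 / (a (lv x) + 1) < x then 1 / a (lv x + 1) else x / (a (lv x) + 1)

theorem W2' {x : ℝ} (h1 : x ≤ 1) : x / (a (lv x) + 1) ≤ ex x := by
  unfold ex
  split_ifs
  · have := lv2 h1
    have := a1 (lv x)
    rw [a_succ, ← div_div]
    exact div_le_div_of_nonneg_right ‹_› (by linarith)
  · rfl

theorem W2 {x : ℝ} (h : 0 < x) (h1 : x ≤ 1) {j : ℕ} (hj : lv x ≤ j) : x / (a j + 1) ≤ ex x :=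
  (div_le_div_of_nonneg_left h.le (by linarith [a1 (lv x)]) (by linarith [a_mono hj])).trans
    (W2' h1)

theorem exn {x : ℝ} (h : 0 < x) (h1 : x ≤ 1) : 0 ≤ ex x :=
  (div_nonneg h.le (by linarith [a1 (lv x)])).trans (W2' h1)

theorem W3 {x : ℝ} (h : 0 < x) {i : ℕ} (hx : x ≤ 1 / (a i + 1)) : ex x ≤ x / (a i + 1) := by
  have ai := a1 i
  have al := a1 (lv x)
  have hl : i ≤ lv x := lv3 h (hx.trans (one_div_le_one_div_of_le (by linarith) (by linarith)))
  unfold ex
  split_ifs with hb
  · rcases hl.lt_or_eq with hl | hl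
    · have := a_lt hl
      rw [a_succ, mul_comm, ← div_div]
      refine div_le_div₀ h.le hb.le (by linarith) (by nlinarith)
    · rw [← hl] at hb; linarith
  · exact div_le_div_of_nonneg_left h.le (by linarith) (by linarith [a_mono hl])

theorem W1 {x : ℝ} (h1 : x ≤ 1) {j : ℕ} (hj : 1 ≤ j) (hx : 1 / ((j : ℝ) + 1) < x) :
    1 / (j : ℝ) ≤ x + ex x := by
  have j1 : (1 : ℝ) ≤ j := by exact_mod_cast hj
  have al := a1 (lv x)
  unfold ex
  split_ifs with hb
  · have h2 := (one_div_lt_one_div (by linarith) (by linarith)).1 (hx.trans_le (lv2 h1))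
    have h3 : a (lv x) ≤ j := by
      unfold a at h2 ⊢
      exact_mod_cast Nat.lt_succ_iff.1 (by exact_mod_cast h2)
    have h4 : 1 / (a (lv x) + 1) + 1 / a (lv x + 1) = 1 / a (lv x) := by
      rw [a_succ]; field_simp
    have := one_div_le_one_div_of_le (by linarith) h3
    linarith
  · have h2 := (one_div_lt_one_div (by linarith) (by linarith)).1 (hx.trans_le (not_lt.1 hb))
    have h3 : a (lv x) + 1 ≤ j := by
      unfold a at h2 ⊢
      have : an (lv x) + 1 < j + 1 := by exact_mod_cast h2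
      exact_mod_cast Nat.lt_succ_iff.1 this
    have h4 : 1 / (j : ℝ) ≤ 1 / ((j : ℝ) + 1) + 1 / ((j : ℝ) + 1) / (a (lv x) + 1) := by
      rw [div_add_div _ _ (by linarith) (by linarith), div_le_div_iff₀ (by linarith) (by positivity)]
      field_simp
      nlinarith
    have := div_le_div_of_nonneg_right hx.le (show 0 ≤ a (lv x) + 1 by linarith)
    linarith

theorem pure {j : ℕ} (hj : 1 ≤ j) (l : List ℝ) (h : ∀ y ∈ l, 1 / ((j : ℝ) + 1) < y ∧ y ≤ 1 / (j : ℝ))
    (he : 1 - l.sum < 1 / (j : ℝ)) : 1 - l.sum ≤ (l.map ex).sum := by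
  have j1 : (1 : ℝ) ≤ j := by exact_mod_cast hj
  have h1 := List.sum_le_card_nsmul l _ fun y hy => (h y hy).2
  have h2 : (l.length : ℝ) * (1 / j) ≤ l.sum + (l.map ex).sum := by
    clear h1 he
    induction l with
    | nil => simp
    | cons y l ih =>
      have := ih fun z hz => h z (by simp [hz])
      have h3 := h y (by simp)
      have := W1 (h3.2.trans (by rw [div_le_one (by linarith)]; exact j1)) hj h3.1
      simp only [List.length_cons, List.map_cons, List.sum_cons]
      push_cast; linarith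
  rw [nsmul_eq_mul] at h1
  have h3 : (j : ℝ) < l.length + 1 := by
    have : 1 < ((l.length : ℝ) + 1) * (1 / j) := by linarith
    rwa [mul_one_div, one_lt_div (by linarith)] at this
  have h4 : (j : ℝ) ≤ l.length := by
    exact_mod_cast Nat.lt_succ_iff.1 (by exact_mod_cast h3)
  have : 1 ≤ (l.length : ℝ) * (1 / j) := by
    rw [mul_one_div, one_le_div (by linarith)]; exact h4
  linarith

theorem dens (c : ℝ) (l : List ℝ) :
    (l.map fun z => ex z - z / c).sum = (l.map ex).sum - l.sum / c := by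
  induction l with
  | nil => simp
  | cons y l ih => simp only [List.map_cons, List.sum_cons, ih]; ring

theorem dens0 {j : ℕ} {l : List ℝ} (h : ∀ y ∈ l, 0 < y ∧ y ≤ 1 ∧ lv y ≤ j) :
    ∀ w ∈ l.map fun z => ex z - z / (a j + 1), 0 ≤ w := by
  intro w hw
  obtain ⟨y, hy, rfl⟩ := List.mem_map.1 hw
  have := W2 (h y hy).1 (h y hy).2.1 (h y hy).2.2
  linarith

theorem ex_one : ex 1 = 1 / 2 := by
  have : lv 1 = 0 := by
    refine Nat.eq_zero_of_le_zero (Nat.sInf_le ?_)
    norm_num [a, an]
  norm_num [ex, this, a, an]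

theorem a42 (j : ℕ) : 42 ≤ a (j + 3) := a3 ▸ a_mono (by omega)

/-- lines of small items -/
def small (k : ℕ) (hk : k ≤ 2) : Line where
  In x := 0 < x ∧ x ≤ 1 / 42 ∧ x ≤ 1 / (a (lv x) + k) ∧ (k < 2 → 1 / (a (lv x) + k + 1) < x)
  lev x := lv x - 3
  hi j := 1 / (a (j + 3) + k)
  ka j := 1 / (2 * (a (j + 3) + 1))
  ps j := 1 / (4 * (a (j + 3) + 1))
  ex := ex
  pos x h := ⟨h.1, by linarith [h.2.1]⟩
  exn x h := exn h.1 (by linarith [h.2.1])
  ex1 := by rw [ex_one, zero_add, a3]; norm_num
  ex2 := by rw [ex_one]; norm_num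
  le_hi x h := by
    have : 3 ≤ lv x := lv3 h.1 (a3 ▸ h.2.1)
    rw [Nat.sub_add_cancel this]; exact h.2.2.1
  anti i j h := one_div_le_one_div_of_le (by have := a1 (i + 3); positivity)
    (by linarith [a_mono (show i + 3 ≤ j + 3 by omega)])
  hin j := by have := a1 (j + 3); positivity
  P j l h he := by
    have aj := a42 j
    have h' : ∀ y ∈ l, 0 < y ∧ y ≤ 1 ∧ lv y ≤ j + 3 := fun y hy =>
      ⟨(h y hy).1.1, by linarith [(h y hy).1.2.1], by have := (h y hy).2; omega⟩
    rcases hk.lt_or_eq with hk | rfl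
    · by_cases hp : ∀ y ∈ l, lv y = j + 3
      · refine pure (j := an (j + 3) + k) ?_ l (fun y hy => ?_) (by simpa [a] using he)
        · have : (1 : ℝ) ≤ an (j + 3) := a1 _
          have : 1 ≤ an (j + 3) := by exact_mod_cast this
          omega
        · have h1 := (h y hy).1.2.2
          rw [hp y hy] at h1
          simpa [a] using And.intro (h1.2 hk) h1.1
      · push Not at hp
        obtain ⟨y, hy, hp⟩ := hp
        have hl : lv y < j + 3 := lt_of_le_of_ne (h' y hy).2.2 hp
        have h1 := List.single_le_sum (dens0 h') _ (List.mem_map_of_mem hy)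
        rw [dens] at h1
        have h2 := W2' (h' y hy).2.1
        have h3 := (h y hy).1.2.2.2 hk
        have h4 := a_lt hl
        have h5 : 42 ≤ a (lv y) := a3 ▸ a_mono (lv3 (h' y hy).1 (a3 ▸ (h y hy).1.2.1))
        have k1 : (k : ℝ) ≤ 1 := by exact_mod_cast Nat.lt_succ_iff.1 hk
        have k0 : (0 : ℝ) ≤ k := Nat.cast_nonneg k
        generalize a (lv y) = b at *
        generalize a (j + 3) = c at *
        have h6 : 1 / (b + 2) ≤ y := (one_div_le_one_div_of_le (by linarith) (by linarith)).trans h3.le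
        have h7 : 1 - l.sum ≤ 1 / c :=
          he.le.trans (one_div_le_one_div_of_le (by linarith) (by linarith))
        have h8 : 0 ≤ 1 / (b + 1) - 1 / (c + 1) :=
          sub_nonneg.2 (one_div_le_one_div_of_le (by linarith) (by nlinarith))
        have h9 := mul_le_mul_of_nonneg_right h6 h8
        have h10 : 2 / (c * (c + 1)) ≤ 1 / (b + 2) * (1 / (b + 1) - 1 / (c + 1)) := by
          rw [div_sub_div _ _ (by linarith) (by linarith), div_mul_div_comm,
            div_le_div_iff₀ (by positivity) (by positivity)]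
          have e1 : b * b ≤ c - b := by linarith
          have e2 : 2 * ((b + 2) * (b + 1)) ≤ (c - b) * c := by
            have : b * b * (b * b) ≤ (c - b) * c := by
              apply mul_le_mul e1 (by linarith) (by positivity) (by nlinarith)
            have : 42 * b ≤ b * b := by nlinarith
            nlinarith
          nlinarith
        have h11 : (1 - 1 / c) / (c + 1) ≤ l.sum / (c + 1) :=
          div_le_div_of_nonneg_right (by linarith) (by linarith)
        have h12 : 1 / c - (1 - 1 / c) / (c + 1) = 2 / (c * (c + 1)) := by field_simp; ring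
        have h13 : y * (1 / (b + 1) - 1 / (c + 1)) = y / (b + 1) - y / (c + 1) := by ring
        linarith
    · have h1 := List.sum_nonneg (dens0 h')
      rw [dens] at h1
      generalize a (j + 3) = c at *
      have h11 : (1 - 1 / (c + 2)) / (c + 1) ≤ l.sum / (c + 1) :=
        div_le_div_of_nonneg_right (by push_cast at he; linarith) (by linarith)
      have h12 : (1 - 1 / (c + 2)) / (c + 1) = 1 / (c + 2) := by field_simp; ring
      push_cast at he
      linarith
  K j l h x hx he := by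
    have aj := a42 j
    have h' : ∀ y ∈ l, 0 < y ∧ y ≤ 1 ∧ lv y ≤ j + 3 := fun y hy =>
      ⟨(h y hy).1.1, by linarith [(h y hy).1.2.1], by have := (h y hy).2; omega⟩
    have h1 := List.sum_nonneg (dens0 h')
    rw [dens] at h1
    have h11 : (1 / 2) / (a (j + 3) + 1) ≤ l.sum / (a (j + 3) + 1) :=
      div_le_div_of_nonneg_right (by linarith [hx.2.1]) (by linarith)
    rw [div_div] at h11
    linarith
  a j := by
    have aj := a42 j
    have k0 : (0 : ℝ) ≤ k := Nat.cast_nonneg k
    refine one_div_le_one_div_of_le (by linarith) ?_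
    rw [show j + 1 + 3 = j + 3 + 1 by ring, a_succ (_ + 3)]; nlinarith
  b j := by
    have aj := a42 j
    have k0 : (0 : ℝ) ≤ k := Nat.cast_nonneg k
    have : 1 / (a (j + 1 + 3) + k) ≤ 1 / (8 * (a (j + 3) + 1)) := by
      refine one_div_le_one_div_of_le (by linarith) ?_
      rw [show j + 1 + 3 = j + 3 + 1 by ring, a_succ (_ + 3)]; nlinarith
    have e : 1 / (4 * (a (j + 3) + 1)) - 1 / (2 * (a (j + 3) + 1)) +
      2 * (1 / (8 * (a (j + 3) + 1))) = 0 := by field_simp; ring
    linarith
  c i j h := by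
    have aj := a42 i
    have k0 : (0 : ℝ) ≤ k := Nat.cast_nonneg k
    have h1 : 1 / (a (i + 1 + 3) + k) ≤ 1 / (16 * (a (i + 3) + 1)) := by
      refine one_div_le_one_div_of_le (by linarith) ?_
      rw [show i + 1 + 3 = i + 3 + 1 by ring, a_succ (_ + 3)]; nlinarith
    have h2 : 1 / (4 * (a (j + 3) + 1)) ≤ 1 / (8 * (a (i + 3) + 1)) := by
      refine one_div_le_one_div_of_le (by linarith) ?_
      have := a_lt (show i + 3 < j + 3 by omega)
      nlinarith
    have e : 1 / (8 * (a (i + 3) + 1)) + 2 * (1 / (16 * (a (i + 3) + 1))) =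
      1 / (4 * (a (i + 3) + 1)) := by field_simp; ring
    linarith
  d j := by
    have aj := a42 j
    exact ⟨by positivity, by rw [div_le_one (by linarith)]; linarith⟩

/-- harmonic lines -/
def large (j : ℕ) : Line where
  In x := 1 / ((j + 1 : ℕ) + 1 : ℝ) < x ∧ x ≤ 1 / ((j + 1 : ℕ) : ℝ)
  lev _ := 0
  hi i := if i = 0 then 1 / ((j + 1 : ℕ) : ℝ) else 0
  ka _ := 0
  ps _ := 0
  ex := ex
  pos x h := ⟨lt_trans (by positivity) h.1,
    h.2.trans (by rw [div_le_one (by positivity)]; exact_mod_cast Nat.le_add_left 1 j)⟩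
  exn x h := exn (lt_trans (by positivity) h.1)
    (h.2.trans (by rw [div_le_one (by positivity)]; exact_mod_cast Nat.le_add_left 1 j))
  ex1 := by rw [ex_one]; norm_num
  ex2 := by rw [ex_one]; norm_num
  le_hi x h := by simpa using h.2
  anti i k h := by
    by_cases hk : k = 0
    · simp [hk, show i = 0 by omega]
    · simp only [hk, if_false]; split_ifs <;> positivity
  hin i := by split_ifs <;> positivity
  P i l h he := by
    split_ifs at he
    · exact pure (Nat.le_add_left 1 j) l (fun y hy => (h y hy).1) he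
    · refine he.le.trans (List.sum_nonneg fun z hz => ?_)
      obtain ⟨y, hy, rfl⟩ := List.mem_map.1 hz
      have h := (h y hy).1
      exact exn (lt_trans (by positivity) h.1)
        (h.2.trans (by rw [div_le_one (by positivity)]; exact_mod_cast Nat.le_add_left 1 j))
  K i l h _ _ _ := by
    refine List.sum_nonneg fun z hz => ?_
    obtain ⟨y, hy, rfl⟩ := List.mem_map.1 hz
    have h := (h y hy).1
    exact exn (lt_trans (by positivity) h.1)
      (h.2.trans (by rw [div_le_one (by positivity)]; exact_mod_cast Nat.le_add_left 1 j))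
  a _ := by simp
  b _ := by simp
  c _ _ _ := by simp
  d _ := by simp

def Lam (l : ℕ) : Line := if h : l ≤ 2 then small l h else large (l - 3)

theorem Lam_ex (l : ℕ) : (Lam l).ex = ex := by unfold Lam; split_ifs <;> rfl

theorem cover {x : ℝ} (h : 0 < x) (h1 : x ≤ 1) : ∃ l < 44, (Lam l).In x := by
  by_cases hs : x ≤ 1 / 42
  · by_cases hb : 1 / (a (lv x) + 1) < x
    · exact ⟨0, by norm_num, h, hs, by simpa using lv2 h1, fun _ => by simpa using hb⟩
    · by_cases hc : 1 / (a (lv x) + 2) < x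
      · refine ⟨1, by norm_num, h, hs, by simpa using hb, fun _ => ?_⟩
        rw [Nat.cast_one, add_assoc, one_add_one_eq_two]; exact hc
      · exact ⟨2, by norm_num, h, hs, by simpa using hc, fun h => absurd h (lt_irrefl _)⟩
  · have h2 : 1 ≤ ⌊1 / x⌋₊ := (Nat.one_le_floor_iff _).2 ((one_le_div h).2 h1)
    have h3 : ⌊1 / x⌋₊ < 42 := (Nat.floor_lt (by positivity)).2 (by
      rw [div_lt_iff₀ h]; push_cast; linarith)
    refine ⟨⌊1 / x⌋₊ + 2, by omega, ?_⟩
    rw [Lam, dif_neg (by omega)]
    have e : ⌊1 / x⌋₊ + 2 - 3 + 1 = ⌊1 / x⌋₊ := by omega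
    have h4 : (1 : ℝ) ≤ ⌊1 / x⌋₊ := by exact_mod_cast h2
    change 1 / ((_ : ℕ) + 1 : ℝ) < x ∧ x ≤ 1 / ((_ : ℕ) : ℝ)
    rw [e]
    exact ⟨(one_div_lt h (by positivity)).1 (Nat.lt_floor_add_one _),
      (le_one_div (by linarith) h).1 (Nat.floor_le (by positivity))⟩

def H (i : ℕ) : ℝ := ∑' l, 1 / a (l + i)

theorem summ : Summable fun l => 1 / a l :=
  Summable.of_nonneg_of_le (fun l => by have := a1 l; positivity)
    (fun l => by rw [one_div_pow]; exact one_div_le_one_div_of_le (by positivity) (a_ge l))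
    summable_geometric_two

theorem H_succ (i : ℕ) : H i = 1 / a i + H (i + 1) := by
  unfold H
  rw [((summable_nat_add_iff i).2 summ).tsum_eq_zero_add]
  simp [add_assoc, add_comm 1 i]

theorem Hn (i : ℕ) : 0 ≤ H i := tsum_nonneg fun l => by have := a1 (l + i); positivity

theorem weight {ι : Type} [DecidableEq ι] (g : ι → ℝ) (n : ℕ) : ∀ s : Finset ι, s.card = n → ∀ i,
    (∀ k ∈ s, 0 < g k) → ∑ k ∈ s, g k ≤ 1 / a i → ∑ k ∈ s, ex (g k) ≤ H (i + 1) := by
  induction n with
  | zero => intro s hs i _ _; rw [card_eq_zero.1 hs]; simpa using Hn _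
  | succ n ih =>
    intro s hs i hp hsum
    have ai := a1 i
    have h4 : 1 / (a i + 1) + 1 / a (i + 1) = 1 / a i := by rw [a_succ]; field_simp
    by_cases hb : ∃ k ∈ s, 1 / (a i + 1) < g k
    · obtain ⟨k, hk, hb⟩ := hb
      have e1 := add_sum_erase s g hk
      have e2 := add_sum_erase s (fun k => ex (g k)) hk
      have := ih (s.erase k) (by rw [card_erase_of_mem hk, hs]; rfl) (i + 1)
        (fun l hl => hp l (mem_of_mem_erase hl)) (by linarith)
      have h0 : 0 ≤ ∑ l ∈ s.erase k, g l := sum_nonneg fun l hl => (hp l (mem_of_mem_erase hl)).le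
      have hl : lv (g k) = i := by
        refine le_antisymm (Nat.sInf_le (lt_of_le_of_lt ?_ hb)) (lv3 (hp k hk) (by linarith))
        exact one_div_le_one_div_of_le (by linarith) (by rw [a_succ]; nlinarith)
      have : ex (g k) = 1 / a (i + 1) := by rw [ex, hl, if_pos hb]
      rw [H_succ]
      linarith
    · push Not at hb
      have h1 : ∑ k ∈ s, ex (g k) ≤ ∑ k ∈ s, g k / (a i + 1) :=
        sum_le_sum fun k hk => W3 (hp k hk) (hb k hk)
      rw [← sum_div] at h1
      have h2 := div_le_div_of_nonneg_right hsum (show 0 ≤ a i + 1 by linarith)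
      rw [div_div, ← a_succ] at h2
      rw [H_succ]
      linarith [Hn (i + 1 + 1)]

end

end Pool.Agent.H.MP_70d3c3_lc
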