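import Mathlib
import Pool.Agent.H.MP_70d3c3_lc.B

set_option autoImplicit false

namespace Pool.Agent.H.MP_70d3c3_lc

open Finset

noncomputable section

open Classical in
def ln (x : ℝ) : ℕ := if h : ∃ l < 44, (Lam l).In x then h.choose else 0

theorem ln_lt (x : ℝ) : ln x < 44 := by
  unfold ln; split_ifs with h
  · exact h.choose_spec.1
  · norm_num

theorem ln_in {x : ℝ} (h : 0 < x ∧ x ≤ 1) : (Lam (ln x)).In x := by
  rw [ln, dif_pos (cover h.1 h.2)]
  exact (cover h.1 h.2).choose_spec.2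

def fl (l : ℕ) (p : List ℝ) : List ℝ := p.filter fun y => ln y = l

def Alg (p : List ℝ) (x : ℝ) : ℕ := 44 * (Lam (ln x)).alg (fl (ln x) p) x + ln x

theorem fl_app (l : ℕ) (p q : List ℝ) : fl l (p ++ q) = fl l p ++ fl l q := List.filter_append ..

theorem fl_snoc (l : ℕ) (p : List ℝ) (x : ℝ) :
    fl l (p ++ [x]) = if ln x = l then fl l p ++ [x] else fl l p := by
  rw [fl_app]; split_ifs with h <;> simp [fl, h]

theorem fl_in {p : List ℝ} (h : ∀ y ∈ p, 0 < y ∧ y ≤ 1) (l : ℕ) : ∀ y ∈ fl l p, (Lam l).In y := by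
  intro y hy
  obtain ⟨h1, h2⟩ := List.mem_filter.1 hy
  have := ln_in (h y h1)
  rwa [of_decide_eq_true h2] at this

theorem load_Alg (p : List ℝ) (c l : ℕ) (hl : l < 44) :
    load Alg p (44 * c + l) = load (Lam l).alg (fl l p) c := by
  induction p using List.reverseRecOn with
  | nil => simp [fl, load_nil]
  | append_singleton p x ih =>
    have := ln_lt x
    rw [load_snoc, ih, fl_snoc]
    by_cases h : ln x = l
    · rw [if_pos h, load_snoc, Alg, h]; simp
    · rw [if_neg h, if_neg (by unfold Alg; omega), add_zero]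

theorem used_Alg (p : List ℝ) (c l : ℕ) (hl : l < 44) (h : 44 * c + l ∈ used Alg p) :
    c ∈ used (Lam l).alg (fl l p) := by
  induction p using List.reverseRecOn with
  | nil => simp [used_nil] at h
  | append_singleton p x ih =>
    have := ln_lt x
    rw [used_snoc, mem_insert] at h
    rw [fl_snoc]
    rcases h with h | h
    · have e : ln x = l := by unfold Alg at h; omega
      rw [Alg, e] at h
      rw [if_pos e, used_snoc, show c = (Lam l).alg (fl l p) x by omega]
      exact mem_insert_self ..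
    · split_ifs
      · rw [used_snoc]; exact mem_insert_of_mem (ih h)
      · exact ih h

theorem Alg_load {p : List ℝ} (h : ∀ y ∈ p, 0 < y ∧ y ≤ 1) (b : ℕ) : load Alg p b ≤ 1 := by
  rw [← Nat.div_add_mod b 44, load_Alg _ _ _ (Nat.mod_lt _ (by norm_num))]
  exact ((Lam _).inv _ (fl_in h _)).l1 _

theorem Alg_bdd {p : List ℝ} (h : ∀ y ∈ p, 0 < y ∧ y ≤ 1) : ∃ S : Finset ℕ, S.card ≤ 132 ∧
    ∀ q x, Alg (p ++ q) x ∈ used Alg p → Alg (p ++ q) x ∈ S := by
  choose S h1 h2 using fun l => (Lam l).bdd _ (fl_in h l)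
  refine ⟨(range 44).biUnion fun l => (S l).image fun c => 44 * c + l, ?_, fun q x hq => ?_⟩
  · simpa using card_biUnion_le_card_mul (range 44) _ 3 fun l _ => card_image_le.trans (h1 l)
  · have := used_Alg _ _ _ (ln_lt x) hq
    rw [fl_app] at this
    refine mem_biUnion.2 ⟨ln x, mem_range.2 (ln_lt x), mem_image.2 ⟨_, h2 _ _ _ this, ?_⟩⟩
    rw [Alg, fl_app]

theorem fl_sum (p : List ℝ) : ∑ l ∈ range 44, ((fl l p).sum + ((fl l p).map ex).sum) =
    p.sum + (p.map ex).sum := by
  induction p using List.reverseRecOn with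
  | nil => simp [fl]
  | append_singleton p x ih =>
    have : ∀ l, (fl l (p ++ [x])).sum + ((fl l (p ++ [x])).map ex).sum =
        (fl l p).sum + ((fl l p).map ex).sum + if ln x = l then x + ex x else 0 := by
      intro l; rw [fl_snoc]; split_ifs <;> simp; ring
    simp only [this]
    rw [sum_add_distrib, ih, sum_ite_eq, if_pos (mem_range.2 (ln_lt x))]
    simp; ring

theorem Alg_count {p : List ℝ} (h : ∀ y ∈ p, 0 < y ∧ y ≤ 1) :
    ((used Alg p).card : ℝ) ≤ p.sum + (p.map ex).sum + 352 := by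
  have h1 : used Alg p ⊆ (range 44).biUnion fun l =>
      (used (Lam l).alg (fl l p)).image fun c => 44 * c + l := by
    intro b hb
    have hl : b % 44 < 44 := Nat.mod_lt _ (by norm_num)
    refine mem_biUnion.2 ⟨b % 44, mem_range.2 hl, mem_image.2 ⟨b / 44, ?_, Nat.div_add_mod b 44⟩⟩
    exact used_Alg _ _ _ hl (by rwa [Nat.div_add_mod])
  have h2 := (card_le_card h1).trans (card_biUnion_le.trans (sum_le_sum fun l _ => card_image_le))
  have h3 : ((used Alg p).card : ℝ) ≤ ∑ l ∈ range 44, ((used (Lam l).alg (fl l p)).card : ℝ) := by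
    exact_mod_cast h2
  refine h3.trans ((sum_le_sum fun l _ => (Lam l).count _ (fl_in h l)).trans (le_of_eq ?_))
  simp only [Line.E, Lam_ex]
  rw [sum_add_distrib, fl_sum]
  norm_num

/-- feasible numbers of bins -/
def Fe (L : List ℝ) : Set ℕ := {m : ℕ | ∃ f : Fin L.length → Fin m, ∀ j : Fin m,
  ∑ i ∈ (Finset.univ : Finset (Fin L.length)).filter (fun i : Fin L.length => f i = j), L.get i ≤ 1}

theorem Fe_ne {L : List ℝ} (h : ∀ y ∈ L, 0 < y ∧ y ≤ 1) : (Fe L).Nonempty :=
  ⟨L.length, id, fun j => by simpa [filter_eq'] using (h _ (List.get_mem L j)).2⟩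

theorem sum_get (L : List ℝ) (g : ℝ → ℝ) : (L.map g).sum = ∑ i, g (L.get i) := by
  conv_lhs => rw [← List.ofFn_get L, List.map_ofFn, List.sum_ofFn]
  rfl

theorem Fe_le {L : List ℝ} (h : ∀ y ∈ L, 0 < y ∧ y ≤ 1) {m : ℕ} (hm : m ∈ Fe L) :
    L.sum ≤ m ∧ L.sum + (L.map ex).sum ≤ H 0 * m := by
  obtain ⟨f, hf⟩ := hm
  have e1 : L.sum = ∑ i, L.get i := by simpa using sum_get L id
  have h1 : L.sum ≤ m := by
    rw [e1, ← sum_fiberwise univ f]
    simpa using sum_le_card_nsmul univ _ 1 fun j _ => hf j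
  refine ⟨h1, ?_⟩
  have h2 : (L.map ex).sum ≤ m * H 1 := by
    rw [sum_get, ← sum_fiberwise univ f]
    have := sum_le_card_nsmul univ _ (H 1) fun j _ => weight L.get _ _ rfl 0
      (fun k _ => (h _ (List.get_mem L k)).1) (by simpa [a0] using hf j)
    rwa [card_univ, Fintype.card_fin, nsmul_eq_mul] at this
  rw [H_succ, a0]; linarith

theorem load_eq (A : List ℝ → ℝ → ℕ) (L : List ℝ) (b : ℕ) :
    ∑ i ∈ (Finset.univ : Finset (Fin L.length)).filter
      (fun i : Fin L.length => A (L.take (i : ℕ)) (L.get i) = b), L.get i = load A L b := by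
  rw [sum_filter, load, ← Fin.sum_univ_eq_sum_range
    (fun i => if A (L.take i) (L.getD i 0) = b then L.getD i 0 else 0)]
  simp

theorem used_eq (A : List ℝ → ℝ → ℕ) (L : List ℝ) :
    (Finset.univ : Finset (Fin L.length)).image
      (fun i : Fin L.length => A (L.take (i : ℕ)) (L.get i)) = used A L := by
  ext b
  simp only [used, mem_image, mem_univ, true_and, mem_range]
  exact ⟨fun ⟨i, hi⟩ => ⟨i, i.2, by simpa using hi⟩, fun ⟨i, h, hi⟩ => ⟨⟨i, h⟩, by simpa [h] using hi⟩⟩

theorem phase {p : List ℝ} (h : ∀ y ∈ p, 0 < y ∧ y ≤ 1) {s : ℝ} (hs : 0 < s ∧ s ≤ 1) (m : ℕ)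
    (hm : 1 / ((m : ℝ) + 1) < s) (N : ℕ) :
    N + m * (used Alg p).card ≤ m * ((used Alg (p ++ List.replicate N s)).card + 132) := by
  obtain ⟨S, hS, hS'⟩ := Alg_bdd h
  set L := p ++ List.replicate N s with hL
  have hLp : ∀ y ∈ L, 0 < y ∧ y ≤ 1 := fun y hy =>
    (List.mem_append.1 hy).elim (h y) fun hy => List.eq_of_mem_replicate hy ▸ hs
  have hlen : L.length = p.length + N := by simp [hL]
  have hg : ∀ i ∈ Ico p.length (p.length + N), L.getD i 0 = s := by
    intro i hi
    obtain ⟨h1, h2⟩ := mem_Ico.1 hi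
    rw [hL, List.getD_append_right _ _ _ _ h1, List.getD_replicate _ (by omega)]
  set g := fun i => Alg (L.take i) (L.getD i 0) with hgd
  have h1 := card_le_mul_card_image (f := g) (Ico p.length (p.length + N)) m fun b _ => by
    have h2 : ∑ i ∈ (Ico p.length (p.length + N)).filter (g · = b), s ≤ load Alg L b := by
      rw [load, ← sum_filter, ← sum_congr rfl fun i hi => hg i (mem_filter.1 hi).1]
      refine sum_le_sum_of_subset_of_nonneg (filter_subset_filter _ fun i hi => ?_) fun i hi _ => ?_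
      · rw [hlen]; exact mem_range.2 (mem_Ico.1 hi).2
      · have := mem_range.1 (mem_filter.1 hi).1
        rw [List.getD_eq_getElem _ _ this]
        exact (hLp _ (List.getElem_mem _)).1.le
    rw [sum_const, nsmul_eq_mul] at h2
    have h3 := h2.trans (Alg_load hLp b)
    rw [div_lt_iff₀ (by positivity)] at hm
    have : ((((Ico p.length (p.length + N)).filter (g · = b)).card : ℕ) : ℝ) < m + 1 := by
      by_contra hc
      nlinarith [hs.1]
    exact Nat.lt_succ_iff.1 (by exact_mod_cast this)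
  have h2 : (Ico p.length (p.length + N)).image g ∪ used Alg p ⊆ used Alg L := by
    refine union_subset (image_subset_image fun i hi => ?_) fun b hb => ?_
    · rw [hlen]; exact mem_range.2 (mem_Ico.1 hi).2
    · obtain ⟨i, hi, rfl⟩ := mem_image.1 hb
      have := mem_range.1 hi
      exact mem_image.2 ⟨i, mem_range.2 (by omega), by
        rw [hL, take_app _ _ this.le, getD_app _ _ this]⟩
  have h3 : (Ico p.length (p.length + N)).image g ∩ used Alg p ⊆ S := by
    intro b hb
    obtain ⟨hb1, hb2⟩ := mem_inter.1 hb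
    obtain ⟨i, hi, rfl⟩ := mem_image.1 hb1
    have e : L.take i = p ++ (List.replicate N s).take (i - p.length) := by
      rw [hL, List.take_append, List.take_of_length_le (mem_Ico.1 hi).1]
    simp only [hgd, e] at hb2 ⊢
    exact hS' _ _ hb2
  have h4 := card_union_add_card_inter ((Ico p.length (p.length + N)).image g) (used Alg p)
  have := card_le_card h2
  have := card_le_card h3
  simp only [Nat.card_Ico, Nat.add_sub_cancel_left] at h1
  calc _ ≤ m * (((Ico p.length (p.length + N)).image g).card + (used Alg p).card) := by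
        rw [mul_add]; omega
    _ ≤ _ := Nat.mul_le_mul_left _ (by omega)

def LL (s : ℕ → ℝ) (N : ℕ) : ℕ → List ℝ
  | 0 => []
  | k + 1 => LL s N k ++ List.replicate N (s k)

theorem LL_mem (s : ℕ → ℝ) (N k : ℕ) : ∀ y ∈ LL s N k, ∃ i < k, y = s i := by
  induction k with
  | zero => simp [LL]
  | succ k ih =>
    intro y hy
    rcases List.mem_append.1 hy with hy | hy
    · obtain ⟨i, hi, e⟩ := ih y hy
      exact ⟨i, by omega, e⟩
    · exact ⟨k, by omega, List.eq_of_mem_replicate hy⟩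

theorem LL_len (s : ℕ → ℝ) (N k : ℕ) : (LL s N k).length = k * N := by
  induction k with
  | zero => simp [LL]
  | succ k ih => simp [LL, ih]; ring

theorem LL_sum (s : ℕ → ℝ) (N k : ℕ) : (LL s N k).sum = N * ∑ i ∈ range k, s i := by
  induction k with
  | zero => simp [LL]
  | succ k ih => simp [LL, ih, sum_range_succ]; ring

theorem LL_load (s : ℕ → ℝ) (N k j : ℕ) (hj : j < N) :
    ∑ i ∈ range (k * N), (if i % N = j then (LL s N k).getD i 0 else 0) = ∑ i ∈ range k, s i := by
  induction k with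
  | zero => simp
  | succ k ih =>
    rw [sum_range_succ, ← ih, add_mul, one_mul, sum_range_add]
    congr 1
    · refine sum_congr rfl fun i hi => ?_
      rw [LL, getD_app _ _ (by rw [LL_len]; exact mem_range.1 hi)]
    · rw [sum_eq_single j]
      · rw [if_pos (by rw [Nat.mul_add_mod_self_right, Nat.mod_eq_of_lt hj]), LL,
          List.getD_append_right _ _ _ _ (by rw [LL_len]; omega),
          List.getD_replicate _ (by rw [LL_len]; omega)]
      · intro i hi hij
        rw [if_neg (by rwa [Nat.mul_add_mod_self_right, Nat.mod_eq_of_lt (mem_range.1 hi)])]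
      · intro h; exact absurd (mem_range.2 hj) h

theorem LL_Fe (s : ℕ → ℝ) (N k : ℕ) (hN : 0 < N) (h : ∑ i ∈ range k, s i ≤ 1) :
    N ∈ Fe (LL s N k) := by
  refine ⟨fun i => ⟨i % N, Nat.mod_lt _ hN⟩, fun j => ?_⟩
  rw [← LL_load s N k j j.2, ← LL_len s N k, ← Fin.sum_univ_eq_sum_range
    (fun i => if i % N = j then (LL s N k).getD i 0 else 0)] at h
  rw [sum_filter]
  simpa [Fin.ext_iff] using h

theorem LL_used (s : ℕ → ℝ) (N k : ℕ) (h : ∀ i < k, 1 / (a i + 1) < s i ∧ s i ≤ 1) :
    N * ∑ i ∈ range k, 1 / a i - 132 * k ≤ (used Alg (LL s N k)).card := by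
  have hp : ∀ i < k, 0 < s i ∧ s i ≤ 1 := fun i hi =>
    ⟨lt_trans (by have := a1 i; positivity) (h i hi).1, (h i hi).2⟩
  induction k with
  | zero => simp
  | succ k ih =>
    have h1 := ih (fun i hi => h i (by omega)) fun i hi => hp i (by omega)
    have h2 := phase (p := LL s N k) (fun y hy => by
      obtain ⟨i, hi, rfl⟩ := LL_mem s N k y hy
      exact hp i (by omega)) (hp k (by omega)) (an k) (h k (by omega)).1 N
    have h3 : (N : ℝ) + a k * (used Alg (LL s N k)).card ≤
        a k * ((used Alg (LL s N (k + 1))).card + 132) := by unfold a; exact_mod_cast h2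
    have ak := a1 k
    have h4 : N * (1 / a k) + (used Alg (LL s N k)).card ≤
        ((used Alg (LL s N (k + 1))).card + 132 : ℝ) := by
      rw [mul_one_div, div_add' _ _ _ (by linarith), div_le_iff₀ (by linarith)]; linarith
    rw [sum_range_succ]; push_cast; linarith

theorem tele (k : ℕ) : ∑ i ∈ range k, 1 / (a i + 1) = 1 - 1 / a k := by
  induction k with
  | zero => simp [a0]
  | succ k ih =>
    have := a1 k
    rw [sum_range_succ, ih, a_succ]; field_simp; ring

theorem lower (ε : ℝ) (hε : 0 < ε) (N : ℕ) : ∃ L : List ℝ, (∀ y ∈ L, 0 < y ∧ y ≤ 1) ∧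
    N ≤ sInf (Fe L) ∧ (H 0 - ε) * (sInf (Fe L) : ℕ) ≤ (used Alg L).card := by
  have hs : HasSum (fun l => 1 / a l) (H 0) := by simpa [H] using summ.hasSum
  obtain ⟨k, hk, k1⟩ := (((tendsto_order.1 hs.tendsto_sum_nat).1 (H 0 - ε / 2) (by linarith)).and
    (Filter.eventually_ge_atTop 1)).exists
  have k1' : (1 : ℝ) ≤ k := by exact_mod_cast k1
  have ak := a1 k
  have ak2 : 2 ≤ a k := le_trans (by norm_num [a, an]) (a_mono k1)
  obtain ⟨M, hM⟩ := exists_nat_gt (2 * N + 264 * k / ε)
  have hM0 : 0 ≤ 264 * k / ε := by positivity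
  have N0 : (0 : ℝ) ≤ N := Nat.cast_nonneg N
  have M0 : 0 < M := by exact_mod_cast (show (0 : ℝ) < M by linarith)
  set s : ℕ → ℝ := fun i => 1 / (a i + 1) + 1 / (a k * k) with hsd
  have h1 : ∑ i ∈ range k, s i = 1 := by
    simp only [hsd]
    rw [sum_add_distrib, tele, sum_const, card_range, nsmul_eq_mul]; field_simp; ring
  have h2 : ∀ i < k, 1 / (a i + 1) < s i ∧ s i ≤ 1 := fun i hi => by
    have := a1 i
    refine ⟨lt_add_of_pos_right _ (by positivity), h1 ▸ single_le_sum (f := s) (fun j _ => ?_)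
      (mem_range.2 hi)⟩
    have := a1 j
    positivity
  have hp : ∀ y ∈ LL s M k, 0 < y ∧ y ≤ 1 := fun y hy => by
    obtain ⟨i, hi, rfl⟩ := LL_mem s M k y hy
    exact ⟨lt_trans (by have := a1 i; positivity) (h2 i hi).1, (h2 i hi).2⟩
  have h3 : sInf (Fe (LL s M k)) ≤ M := Nat.sInf_le (LL_Fe s M k M0 h1.le)
  have h4 := (Fe_le hp (Nat.sInf_mem (Fe_ne hp))).1
  rw [LL_sum, h1, mul_one] at h4
  have h5 : sInf (Fe (LL s M k)) = M := le_antisymm h3 (by exact_mod_cast h4)
  refine ⟨LL s M k, hp, ?_, ?_⟩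
  · rw [h5]; exact_mod_cast (show (N : ℝ) ≤ M by linarith)
  · rw [h5]
    have h6 := LL_used s M k h2
    have h7 : 264 * k < M * ε := by rw [← div_lt_iff₀ hε]; linarith
    have : (0 : ℝ) < M := by exact_mod_cast M0
    nlinarith

theorem upper (ε : ℝ) (hε : 0 < ε) : ∃ N : ℕ, ∀ L : List ℝ, (∀ y ∈ L, 0 < y ∧ y ≤ 1) →
    N ≤ sInf (Fe L) → ((used Alg L).card : ℝ) ≤ (H 0 + ε) * (sInf (Fe L) : ℕ) := by
  obtain ⟨N, hN⟩ := exists_nat_gt (352 / ε)
  refine ⟨N, fun L h hL => ?_⟩
  have h1 := Alg_count h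
  have h2 := (Fe_le h (Nat.sInf_mem (Fe_ne h))).2
  have h3 : (N : ℝ) ≤ (sInf (Fe L) : ℕ) := by exact_mod_cast hL
  rw [div_lt_iff₀ hε] at hN
  nlinarith

end

end Pool.Agent.H.MP_70d3c3_lc
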